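import Mathlib
import Pool.Agent.W745.RW.Stm

set_option autoImplicit false

open MeasureTheory Filter Topology Complex
open scoped ContDiff ENNReal NNReal

namespace Pool.Agent.W404.RW.L

open Pool.Agent.W745.RW

/-- Gagliardo-Nirenberg in the plane with real integrals. -/
lemma gn (g : ℂ → ℝ) (hg : ContDiff ℝ 1 g) (hc : HasCompactSupport g) :
    ∫ z, g z ^ 2 ≤ (lintegralPowLePowLIntegralFDerivConst (volume : Measure ℂ) 2 : ℝ) *
      (∫ z, ‖fderiv ℝ g z‖) ^ 2 := by
  have hp : Real.HolderConjugate (Module.finrank ℝ ℂ : ℝ) 2 := by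
    rw [Complex.finrank_real_complex]; exact_mod_cast Real.HolderConjugate.two_two
  have h := lintegral_pow_le_pow_lintegral_fderiv (volume : Measure ℂ) hg hc hp
  have hDc : Continuous (fderiv ℝ g) := hg.continuous_fderiv (by norm_num)
  have hDi : Integrable (fderiv ℝ g) := hDc.integrable_of_hasCompactSupport (hc.fderiv ℝ)
  have h2c : HasCompactSupport (fun z => g z ^ 2) :=
    hc.comp_left (g := fun x : ℝ => x ^ 2) (by simp)
  have h2 : Integrable (fun z => g z ^ 2) :=
    Continuous.integrable_of_hasCompactSupport (hg.continuous.pow 2) h2c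
  rw [← ofReal_integral_norm_eq_lintegral_enorm hDi] at h
  have e1 : ∫⁻ z, ‖g z‖ₑ ^ (2 : ℝ) = ENNReal.ofReal (∫ z, g z ^ 2) := by
    rw [ofReal_integral_eq_lintegral_ofReal h2 (Filter.Eventually.of_forall fun z => sq_nonneg _)]
    refine lintegral_congr fun z => ?_
    rw [← ofReal_norm, ENNReal.ofReal_rpow_of_nonneg (norm_nonneg _) (by norm_num)]
    congr 1
    rw [Real.norm_eq_abs]
    norm_num
  rw [e1, ENNReal.ofReal_rpow_of_nonneg (integral_nonneg fun z => norm_nonneg _) (by norm_num)] at h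
  have e2 : ((lintegralPowLePowLIntegralFDerivConst (volume : Measure ℂ) 2 : ℝ≥0) : ℝ≥0∞) =
      ENNReal.ofReal (lintegralPowLePowLIntegralFDerivConst (volume : Measure ℂ) 2 : ℝ) := by
    rw [ENNReal.ofReal_coe_nnreal]
  rw [e2, ← ENNReal.ofReal_mul (by positivity)] at h
  have h3 := (ENNReal.ofReal_le_ofReal_iff (by positivity)).1 h
  have e3 : (∫ z, ‖fderiv ℝ g z‖) ^ (2 : ℝ) = (∫ z, ‖fderiv ℝ g z‖) ^ 2 := by norm_num
  rw [e3] at h3
  exact h3

lemma norm_fderiv_sq (f : ℂ → ℝ) (z : ℂ) :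
    ‖fderiv ℝ f z‖ ^ 2 ≤ 2 * (dx f z ^ 2 + dy f z ^ 2) := by
  have h1 : ‖fderiv ℝ f z‖ ≤ |dx f z| + |dy f z| := by
    refine ContinuousLinearMap.opNorm_le_bound _ (by positivity) fun v => ?_
    have hv : v = v.re • (1 : ℂ) + v.im • I := by
      simp
    have : fderiv ℝ f z v = v.re * dx f z + v.im * dy f z := by
      conv_lhs => rw [hv]
      rw [map_add, map_smul, map_smul]; rfl
    rw [this, Real.norm_eq_abs]
    have a1 := Complex.abs_re_le_norm v
    have a2 := Complex.abs_im_le_norm v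
    calc |v.re * dx f z + v.im * dy f z| ≤ |v.re| * |dx f z| + |v.im| * |dy f z| := by
          refine (abs_add_le _ _).trans ?_
          rw [abs_mul, abs_mul]
      _ ≤ ‖v‖ * |dx f z| + ‖v‖ * |dy f z| := by gcongr
      _ = _ := by ring
  have h2 : ‖fderiv ℝ f z‖ ^ 2 ≤ (|dx f z| + |dy f z|) ^ 2 := by gcongr
  nlinarith [sq_abs (dx f z), sq_abs (dy f z), sq_nonneg (|dx f z| - |dy f z|)]

theorem main : SL := by
  set K : ℝ := (lintegralPowLePowLIntegralFDerivConst (volume : Measure ℂ) 2 : ℝ) with hK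
  have hK0 : 0 ≤ K := by rw [hK]; positivity
  refine ⟨8 * K, fun f hf hc => ?_⟩
  have hfc : Continuous f := hf.continuous
  have hDc : Continuous (fderiv ℝ f) := hf.continuous_fderiv (by norm_num)
  have hgC : ContDiff ℝ 1 (fun z => f z ^ 2) := hf.pow 2
  have hgc : HasCompactSupport (fun z => f z ^ 2) :=
    hc.comp_left (g := fun x : ℝ => x ^ 2) (by simp)
  have h1 := gn _ hgC hgc
  have hDg : ∀ z, ‖fderiv ℝ (fun z => f z ^ 2) z‖ = 2 * (|f z| * ‖fderiv ℝ f z‖) := by
    intro z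
    have hd : DifferentiableAt ℝ f z := (hf.differentiable (by norm_num)) z
    have := (hd.hasFDerivAt.pow 2).fderiv
    rw [this]
    rw [norm_smul]
    simp
    ring
  have iA : Integrable (fun z => f z ^ 2) := (hfc.pow 2).integrable_of_hasCompactSupport hgc
  have cabs : HasCompactSupport (fun z => |f z|) :=
    hc.comp_left (g := fun x : ℝ => |x|) (by simp)
  have cM : HasCompactSupport (fun z => |f z| * ‖fderiv ℝ f z‖) := cabs.mul_right
  have iM : Integrable (fun z => |f z| * ‖fderiv ℝ f z‖) :=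
    Continuous.integrable_of_hasCompactSupport (hfc.abs.mul hDc.norm) cM
  have cD : HasCompactSupport (fderiv ℝ f) := hc.fderiv ℝ
  have cB : HasCompactSupport (fun z => ‖fderiv ℝ f z‖ ^ 2) :=
    cD.comp_left (g := fun x : ℂ →L[ℝ] ℝ => ‖x‖ ^ 2) (by simp)
  have iB : Integrable (fun z => ‖fderiv ℝ f z‖ ^ 2) :=
    Continuous.integrable_of_hasCompactSupport (hDc.norm.pow 2) cB
  have hdxc : Continuous (dx f) := by
    unfold dx; exact hDc.clm_apply continuous_const
  have hdyc : Continuous (dy f) := by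
    unfold dy; exact hDc.clm_apply continuous_const
  have cE : HasCompactSupport (fun z => 2 * (dx f z ^ 2 + dy f z ^ 2)) :=
    cD.comp_left (g := fun x : ℂ →L[ℝ] ℝ => 2 * ((x 1) ^ 2 + (x I) ^ 2)) (by simp)
  have iD : Integrable (fun z => 2 * (dx f z ^ 2 + dy f z ^ 2)) :=
    Continuous.integrable_of_hasCompactSupport
      (continuous_const.mul ((hdxc.pow 2).add (hdyc.pow 2))) cE
  set A := ∫ z, f z ^ 2 with hA
  set M := ∫ z, |f z| * ‖fderiv ℝ f z‖ with hM
  set B := ∫ z, ‖fderiv ℝ f z‖ ^ 2 with hB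
  have hB2 : B ≤ 2 * ∫ z, (dx f z ^ 2 + dy f z ^ 2) := by
    rw [← integral_const_mul]
    exact integral_mono iB iD fun z => norm_fderiv_sq f z
  have hA0 : 0 ≤ A := integral_nonneg fun z => sq_nonneg _
  have hcs : M ^ 2 ≤ A * B := by
    have hq : ∀ t : ℝ, 0 ≤ A * (t * t) + (-2 * M) * t + B := by
      intro t
      have : A * (t * t) + (-2 * M) * t + B = ∫ z, (t * |f z| - ‖fderiv ℝ f z‖) ^ 2 := by
        have e : ∀ z, (t * |f z| - ‖fderiv ℝ f z‖) ^ 2 =
            (t * t) * f z ^ 2 + (-2 * t) * (|f z| * ‖fderiv ℝ f z‖) + ‖fderiv ℝ f z‖ ^ 2 := by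
          intro z
          have := sq_abs (f z)
          linear_combination (t * t) * this
        simp_rw [e]
        have j1 : Integrable (fun z => (t * t) * f z ^ 2) := iA.const_mul _
        have j2 : Integrable (fun z => (-2 * t) * (|f z| * ‖fderiv ℝ f z‖)) := iM.const_mul _
        have j3 : Integrable (fun z => (t * t) * f z ^ 2 +
            (-2 * t) * (|f z| * ‖fderiv ℝ f z‖)) := j1.add j2
        rw [integral_add j3 iB, integral_add j1 j2, integral_const_mul, integral_const_mul]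
        ring
      rw [this]
      exact integral_nonneg fun z => sq_nonneg _
    have := discrim_le_zero hq
    unfold discrim at this
    nlinarith
  have h4 : ∫ z, f z ^ 4 = ∫ z, (f z ^ 2) ^ 2 := by
    congr 1; ext z; ring
  have h5 : ∫ z, ‖fderiv ℝ (fun z => f z ^ 2) z‖ = 2 * M := by
    simp_rw [hDg]
    rw [integral_const_mul]
  rw [h4]
  rw [h5] at h1
  calc ∫ z, (f z ^ 2) ^ 2 ≤ K * (2 * M) ^ 2 := h1
    _ = 4 * K * M ^ 2 := by ring
    _ ≤ 4 * K * (A * B) := by gcongr
    _ ≤ 4 * K * (A * (2 * ∫ z, (dx f z ^ 2 + dy f z ^ 2))) := by gcongr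
    _ = _ := by ring

end Pool.Agent.W404.RW.L
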